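import Pool.Agent.N869.GK.L.Stm

/-!
# Project GK, piece LAA: assembly of the linear algebra (helper195)
-/

set_option autoImplicit false
set_option linter.unusedVariables false
set_option linter.unusedSectionVars false

open scoped Classical

namespace Pool.Agent.N195.GK

open Finset
open Pool.Agent.N869.QT.L (prs ext Lc Fam)
open Pool.Agent.N869.GK

/-- the reciprocity law for the extension -/
theorem ext_recip {J : Type} [Fintype J] [LinearOrder J] (t : J → ZMod 2) (α : prs J → ZMod 2)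
    (k l : J) (hkl : k ≠ l) : ext t α k l + ext t α l k = t k * t l := by
  have hprs : ∀ a b : J, (a, b) ∈ prs J ↔ a < b := by
    intro a b
    unfold prs
    rw [Finset.mem_filter]
    exact ⟨fun h => h.2, fun h => ⟨Finset.mem_univ _, h⟩⟩
  have h2 : ∀ x : ZMod 2, x + x = 0 := fun x => CharTwo.add_self_eq_zero x
  rcases lt_or_gt_of_ne hkl with h | h
  · have h1 : (k, l) ∈ prs J := (hprs k l).2 h
    have h1' : ¬ (l, k) ∈ prs J := fun h' => lt_asymm h ((hprs l k).1 h')
    unfold Pool.Agent.N869.QT.L.ext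
    rw [dif_neg h1', dif_pos h1, dif_pos h1]
    have e : α ⟨(k, l), h1⟩ + t k * t l + α ⟨(k, l), h1⟩ =
        (α ⟨(k, l), h1⟩ + α ⟨(k, l), h1⟩) + t k * t l := by ring
    rw [e, h2, zero_add]
  · have h1 : (l, k) ∈ prs J := (hprs l k).2 h
    have h1' : ¬ (k, l) ∈ prs J := fun h' => lt_asymm h ((hprs k l).1 h')
    unfold Pool.Agent.N869.QT.L.ext
    rw [dif_pos h1, dif_neg h1', dif_pos h1]
    have e : α ⟨(l, k), h1⟩ + (α ⟨(l, k), h1⟩ + t l * t k) =
        (α ⟨(l, k), h1⟩ + α ⟨(l, k), h1⟩) + t k * t l := by ring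
    rw [e, h2, zero_add]

/-- monotonicity of the hypotheses -/
theorem hyp_mono {r : ℕ} {U J I Q : Type} [Fintype U] [Fintype J] {D : Par r} {K K' : ℕ}
    {W : I → Finset U} {E : I → Finset Q} {g : J → Q} {lU : U → Gr r} {lJ : J → Gr r}
    {A : U → U → ZMod 2} {B : U → J → ZMod 2} (hK : K' ≤ K) (h : HypG D K W E g lU lJ A B) :
    HypG D K' W E g lU lJ A B where
  many q π := (Nat.mul_le_mul_right _ hK).trans (h.many q π)
  par := h.par
  recip := h.recip
  nd := h.nd

/-- the hypotheses for one system -/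
theorem hyp1_of {r : ℕ} {U J I Q : Type} [Fintype U] [Fintype J] [LinearOrder J] {D : Par r} {K : ℕ}
    {W : I → Finset U} {E : I → Finset Q} {g : J → Q} {lU : U → Gr r} {lJ : J → Gr r}
    {A : U → U → ZMod 2} {B : U → J → ZMod 2} (hK : 1 ≤ K) (hE : Fam E)
    (h : HypG D K W E g lU lJ A B) (α : prs J → ZMod 2) (a : I) :
    Hyp1 D (Sum.elim lU lJ) (Nm D lU lJ A B α) (TT W E g a) where
  all π := by
    obtain ⟨q, hq⟩ := hE.ne a
    have h1 := h.many q π
    have h2 : 1 ≤ K * (Fintype.card U + Nat.log 2 (Fintype.card J) + 1) :=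
      Nat.one_le_iff_ne_zero.2 (Nat.mul_ne_zero (by omega) (by omega))
    obtain ⟨k, hk⟩ := Finset.card_pos.1 (lt_of_lt_of_le Nat.zero_lt_one (h2.trans h1))
    rw [Finset.mem_filter] at hk
    refine ⟨Sum.inr k, ?_, hk.2.2⟩
    unfold TT
    rw [Finset.inr_mem_disjSum]
    unfold Lc
    rw [Finset.mem_filter]
    exact ⟨Finset.mem_univ _, by rw [hk.2.1]; exact hq⟩
  par := by
    unfold TT
    rw [Finset.sum_disjSum]
    exact h.par a
  recip := by
    have h2 : ∀ x : ZMod 2, x + x = 0 := fun x => CharTwo.add_self_eq_zero x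
    rintro (u | k) _ (v | l) _ hij
    · simp only [Nm, Sum.elim_inl]
      exact h.recip u v fun h0 => hij (by rw [h0])
    · simp only [Nm, Sum.elim_inl, Sum.elim_inr]
      have e : B u l + dot D.em (lU u) * dot D.em (lJ l) + B u l =
        (B u l + B u l) + dot D.em (lU u) * dot D.em (lJ l) := by ring
      rw [e, h2, zero_add]
    · simp only [Nm, Sum.elim_inl, Sum.elim_inr]
      have e : B v k + (B v k + dot D.em (lU v) * dot D.em (lJ k)) =
        (B v k + B v k) + dot D.em (lJ k) * dot D.em (lU v) := by ring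
      rw [e, h2, zero_add]
    · simp only [Nm, Sum.elim_inr]
      exact ext_recip _ α k l fun h0 => hij (by rw [h0])

/-- restriction to a subtype -/
theorem hyp1_sub {r : ℕ} {R : Type} {D : Par r} {lab : R → Gr r} {N : R → R → ZMod 2}
    {T : Finset R} (h : Hyp1 D lab N T) :
    Hyp1 D (fun i : {i // i ∈ T} => lab i.1) (fun i j => N i.1 j.1) univ where
  all π := by
    obtain ⟨i, hi, hπ⟩ := h.all π
    exact ⟨⟨i, hi⟩, Finset.mem_univ _, hπ⟩
  par := by
    have h1 := h.par
    rw [← Finset.sum_coe_sort] at h1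
    exact h1
  recip := by
    intro i _ j _ hij
    exact h.recip i.1 i.2 j.1 j.2 fun h0 => hij (Subtype.ext h0)

/-- counting families of solutions -/
theorem count_eq {Ω ι X : Type} [Fintype Ω] [Fintype ι] [Fintype X] (P : Ω → ι → X → Prop) :
    (univ.filter fun y : Ω × (ι → X) => ∀ x, P y.1 x (y.2 x)).card =
      ∑ α, ∏ x, {z | P α x z}.ncard := by
  rw [Finset.card_filter, ← Finset.univ_product_univ, Finset.sum_product]
  apply Finset.sum_congr rfl
  intro α _
  have h1 : ∀ x, {z | P α x z}.ncard = (univ.filter fun z => P α x z).card := by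
    intro x
    rw [← Set.ncard_coe_finset]
    congr 1
    ext z
    simp
  simp_rw [h1]
  rw [← Fintype.card_piFinset, ← Finset.card_filter]
  congr 1
  ext y
  simp

theorem mc_sigma {I : Type} [Fintype I] (m : I → ℕ) (a : I) :
    mc (fun x : (Σ a, Fin (m a)) => x.1) a = m a := by
  unfold mc cp
  rw [Finset.card_filter, ← Finset.univ_sigma_univ, Finset.sum_sigma, Finset.sum_eq_single a]
  · simp
  · intro b _ hb
    simp [hb]
  · intro h
    exact absurd (Finset.mem_univ a) h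

theorem prod_sigma' {I : Type} [Fintype I] (m : I → ℕ) (f : I → ℕ) :
    ∏ x : (Σ a, Fin (m a)), f x.1 = ∏ a, f a ^ m a := by
  rw [← Finset.univ_sigma_univ, Finset.prod_sigma]
  apply Finset.prod_congr rfl
  intro a _
  change ∏ s : Fin (m a), f a = f a ^ m a
  rw [Finset.prod_const, Finset.card_univ, Fintype.card_fin]

theorem t_LAA : S_LAA := by
  intro hMOM hINV hPAR hALTR hAUTO hTOR hKC hSUB r D hOk e hRk ρ hρ I Q _ _ E hE ε hε
  obtain ⟨m₀, δ, hδ, hM⟩ := hINV I e ρ hρ ε hε
  choose KK hKK using fun m : I → ℕ => hMOM r D hOk (Σ a, Fin (m a)) I Q E (fun x => x.1) hE δ hδ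
  obtain ⟨P, hP⟩ : ∃ P : Finset (I → ℕ), P = Fintype.piFinset fun _ : I => range (m₀ + 1) :=
    ⟨_, rfl⟩
  refine ⟨P.sup KK + 1, ?_⟩
  intro U J _ _ _ W g lU lJ A B hyp
  have hpar : ∀ (α : prs J → ZMod 2) (a : I), ∃ k : ℕ, k % 2 = e % 2 ∧
      {x | Sol D (Sum.elim lU lJ) (Nm D lU lJ A B α) (TT W E g a) x}.ncard = 2 ^ (k + 2) := by
    intro α a
    have h1 := hyp1_of (Nat.le_add_left 1 (P.sup KK)) hE hyp α a
    obtain ⟨k, hk, hG⟩ := hPAR hALTR hAUTO hTOR hKC r D hOk e hRk {i // i ∈ TT W E g a} _ _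
      (hyp1_sub h1)
    refine ⟨k, hk, ?_⟩
    have h2 := (hSUB r D (U ⊕ J) {i // i ∈ TT W E g a} Subtype.val Subtype.val_injective
      (Sum.elim lU lJ) (Nm D lU lJ A B α) (TT W E g a) univ (fun i => by
        constructor
        · intro hi
          exact ⟨⟨i, hi⟩, Finset.mem_univ _, rfl⟩
        · rintro ⟨j, _, rfl⟩
          exact j.2)).1
    rw [h2]
    exact hG
  choose kk hkk1 hkk2 using hpar
  have hcardΩ : (Fintype.card (prs J → ZMod 2) : ℝ) = 2 ^ (prs J).card := by
    rw [Fintype.card_fun, ZMod.card, Fintype.card_coe]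
    push_cast
    rfl
  have key := hM (prs J → ZMod 2) kk hkk1 ?_
  · rw [hcardΩ] at key
    have h1 : (univ.filter fun α : prs J → ZMod 2 =>
          ∀ a, Gk D (Sum.elim lU lJ) (Nm D lU lJ A B α) ρ (TT W E g a)) =
        univ.filter fun α : prs J → ZMod 2 => ∀ a, kk α a = ρ := by
      apply Finset.filter_congr
      intro α _
      apply forall_congr'
      intro a
      unfold Gk
      rw [hkk2]
      constructor
      · intro h
        have h2 := Nat.pow_right_injective le_rfl h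
        omega
      · intro h
        rw [h]
    rw [h1]
    exact key
  · intro m hm
    have hmP : m ∈ P := by
      rw [hP, Fintype.mem_piFinset]
      intro i
      rw [Finset.mem_range]
      have := hm i
      omega
    have hyp2 : HypG D (KK m) W E g lU lJ A B :=
      hyp_mono ((Finset.le_sup (f := KK) hmP).trans (by omega)) hyp
    have h1 := hKK m U J W g lU lJ A B hyp2
    have h2 := count_eq (Ω := prs J → ZMod 2) (ι := Σ a, Fin (m a))
      (X := (Fin 2 → Gr r) × (U ⊕ J → V))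
      (fun α x z => Sol D (Sum.elim lU lJ) (Nm D lU lJ A B α) (TT W E g x.1) z)
    have h3 : ∀ α : prs J → ZMod 2, ∏ x : (Σ a, Fin (m a)),
        {z | Sol D (Sum.elim lU lJ) (Nm D lU lJ A B α) (TT W E g x.1) z}.ncard =
        (∏ a, 4 ^ m a) * ∏ a, 2 ^ (m a * kk α a) := by
      intro α
      simp_rw [hkk2]
      rw [prod_sigma' m (fun a => 2 ^ (kk α a + 2)), ← Finset.prod_mul_distrib]
      apply Finset.prod_congr rfl
      intro a _
      rw [pow_add, mul_pow, ← pow_mul, mul_comm (kk α a), mul_comm]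
      norm_num
    have h4 := h2.trans ((Finset.sum_congr rfl fun α _ => h3 α).trans
      (Finset.mul_sum univ (fun α => ∏ a, 2 ^ (m a * kk α a)) (∏ a, 4 ^ m a)).symm)
    rw [hcardΩ]
    have h5 : |((∏ a, (4 : ℝ) ^ m a) * ∑ α, ∏ a, (2 : ℝ) ^ (m a * kk α a)) / 2 ^ (prs J).card -
        (∏ a, (4 : ℝ) ^ m a) * ∏ a, mom (m a)| ≤ δ := by
      have h6 : (((∏ a, 4 ^ m a) * ∑ α, ∏ a, 2 ^ (m a * kk α a) : ℕ) : ℝ) =
          (∏ a, (4 : ℝ) ^ m a) * ∑ α, ∏ a, (2 : ℝ) ^ (m a * kk α a) := by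
        push_cast
        rfl
      rw [← h6, ← h4, ← Finset.prod_mul_distrib]
      simp_rw [mc_sigma] at h1
      exact h1
    have h7 : (1 : ℝ) ≤ ∏ a, (4 : ℝ) ^ m a := by
      calc (1 : ℝ) = ∏ a : I, (1 : ℝ) := by simp
        _ ≤ _ := Finset.prod_le_prod (fun _ _ => zero_le_one)
          (fun a _ => one_le_pow₀ (by norm_num))
    have h8 : ((∏ a, (4 : ℝ) ^ m a) * ∑ α, ∏ a, (2 : ℝ) ^ (m a * kk α a)) / 2 ^ (prs J).card -
        (∏ a, (4 : ℝ) ^ m a) * ∏ a, mom (m a) = (∏ a, (4 : ℝ) ^ m a) *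
        ((∑ α, ∏ a, (2 : ℝ) ^ (m a * kk α a)) / 2 ^ (prs J).card - ∏ a, mom (m a)) := by
      ring
    rw [h8, abs_mul, abs_of_nonneg (by linarith)] at h5
    exact (le_mul_of_one_le_left (abs_nonneg _) h7).trans h5

end Pool.Agent.N195.GK
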