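import Pool.Agent.N869.GK.D.Stm
import Pool.Agent.W335.BMX.Odd
import Pool.Agent.W975.BMX.Two
import Pool.Agent.N856.JL.FB

/-!
# Project GK (helper869), descent, part LAB (helper195): the labels
-/

set_option autoImplicit false
set_option linter.unusedVariables false

open scoped Classical

namespace Pool.Agent.N195.GK.LAB

open Finset
open Pool.Agent.Y703.CQ (nr)
open Pool.Agent.N973.ND (uu)
open Pool.Agent.N916.GB (Po)
open Pool.Agent.N869.GK Pool.Agent.N869.GK.D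
open Pool.Agent.N856.JL.FB (crt nr_congr exists_nr nr_one)

/-- a sign as an element of `ZMod 2` -/
def sgn (z : ℤ) : ZMod 2 := if z = 1 then 0 else 1

lemma sgn_one : sgn 1 = 0 := by simp [sgn]

lemma sgn_mul {z w : ℤ} (hz : z = 1 ∨ z = -1) (hw : w = 1 ∨ w = -1) :
    sgn (z * w) = sgn z + sgn w := by
  have h11 : (1 : ZMod 2) + 1 = 0 := by decide
  rcases hz with rfl | rfl <;> rcases hw with rfl | rfl <;> simp [sgn, h11]

lemma sgn_eq_zero {z : ℤ} : sgn z = 0 ↔ z = 1 := by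
  unfold sgn
  by_cases h : z = 1
  · simp [h]
  · simp [h]

lemma sgn_prod {ι : Type} (s : Finset ι) (f : ι → ℤ) (hf : ∀ i ∈ s, f i = 1 ∨ f i = -1) :
    (∏ i ∈ s, f i = 1 ∨ ∏ i ∈ s, f i = -1) ∧ sgn (∏ i ∈ s, f i) = ∑ i ∈ s, sgn (f i) := by
  induction s using Finset.induction_on with
  | empty => simp [sgn_one]
  | insert a s ha ih =>
    obtain ⟨h1, h2⟩ := ih fun i hi => hf i (mem_insert_of_mem hi)
    have h3 := hf a (mem_insert_self a s)
    rw [prod_insert ha, sum_insert ha, sgn_mul h3 h1, h2]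
    refine ⟨?_, rfl⟩
    rcases h3 with h3 | h3 <;> rcases h1 with h1 | h1 <;> simp [h3, h1]

section

variable {b : Finset ℕ} {r : ℕ} {g : Fin r → ℤ}

lemma odd_of_cop {n : ℕ} (h : n.Coprime (MM b)) : n % 2 = 1 := by
  have h1 : n.Coprime 8 := Nat.Coprime.coprime_mul_right_right h
  have h2 : n.Coprime 2 := Nat.Coprime.coprime_dvd_right (by norm_num) h1
  exact Nat.odd_iff.1 (Nat.coprime_two_right.1 h2)

lemma cop_l {n l : ℕ} (h : n.Coprime (MM b)) (hl : l ∈ b) : n.Coprime l :=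
  Nat.Coprime.coprime_dvd_right (Dvd.dvd.mul_left (dvd_prod_of_mem _ hl) 8) h

lemma ne_zero_of_cop {n : ℕ} (h : n.Coprime (MM b)) : n ≠ 0 := by
  rintro rfl
  have := odd_of_cop h
  omega

lemma l_odd (hG : Gen b g) {l : ℕ} (hl : l ∈ b) : Odd l :=
  (hG.odd l hl).1.odd_of_ne_two (hG.odd l hl).2

lemma sym_pm (hG : Gen b g) {n : ℕ} (h : n.Coprime (MM b)) (i : Fin r) :
    jacobiSym (g i) n = 1 ∨ jacobiSym (g i) n = -1 := by
  apply jacobiSym.eq_one_or_neg_one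
  have h2 := Nat.coprime_two_right.2 (Nat.odd_iff.2 (odd_of_cop h))
  rcases (hG.im (g i)).1 ⟨i, rfl⟩ with h1 | h1 | ⟨l, hl, h1⟩
  · rw [h1]
    simp
  · rw [h1]
    have : Int.gcd 2 (n : ℤ) = Nat.gcd 2 n := rfl
    rw [this]
    exact h2.symm
  · rw [h1, Int.gcd_natCast_natCast]
    exact (cop_l h hl).symm

lemma lam_eq (n : ℕ) (i : Fin r) : lam g n i = sgn (jacobiSym (g i) n) := rfl

/-- (1) -/
lemma lam_mul (hG : Gen b g) {u w : ℕ} (hu : u.Coprime (MM b)) (hw : w.Coprime (MM b)) :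
    lam g (u * w) = lam g u + lam g w := by
  funext i
  rw [Pi.add_apply, lam_eq, lam_eq, lam_eq]
  have : NeZero u := ⟨ne_zero_of_cop hu⟩
  have : NeZero w := ⟨ne_zero_of_cop hw⟩
  rw [jacobiSym.mul_right, sgn_mul (sym_pm hG hu i) (sym_pm hG hw i)]

/-- label zero in terms of symbols -/
lemma lam_zero (hG : Gen b g) (n : ℕ) : lam g n = 0 ↔
    jacobiSym (-1) n = 1 ∧ jacobiSym 2 n = 1 ∧ ∀ l ∈ b, jacobiSym (l : ℤ) n = 1 := by
  have h1 : lam g n = 0 ↔ ∀ i, jacobiSym (g i) n = 1 := by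
    rw [funext_iff]
    refine forall_congr' fun i => ?_
    rw [lam_eq, Pi.zero_apply, sgn_eq_zero]
  rw [h1]
  constructor
  · intro h
    refine ⟨?_, ?_, fun l hl => ?_⟩
    · obtain ⟨i, hi⟩ := (hG.im (-1)).2 (Or.inl rfl)
      rw [← hi]
      exact h i
    · obtain ⟨i, hi⟩ := (hG.im 2).2 (Or.inr (Or.inl rfl))
      rw [← hi]
      exact h i
    · obtain ⟨i, hi⟩ := (hG.im (l : ℤ)).2 (Or.inr (Or.inr ⟨l, hl, rfl⟩))
      rw [← hi]
      exact h i
  · rintro ⟨h1, h2, h3⟩ i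
    rcases (hG.im (g i)).1 ⟨i, rfl⟩ with h | h | ⟨l, hl, h⟩
    · rw [h, h1]
    · rw [h, h2]
    · rw [h, h3 l hl]

lemma nr_zero (l n : ℕ) : nr l n = 0 ↔ IsSquare (n : ZMod l) := by
  unfold Pool.Agent.Y703.CQ.nr
  by_cases h : IsSquare (n : ZMod l)
  · simp [h]
  · simp [h]

/-- Jacobi symbols at primes -/
lemma sym_prime {p : ℕ} (hp : p.Prime) {a : ℤ} (ha : ¬ (p : ℤ) ∣ a) :
    jacobiSym a p = 1 ↔ IsSquare (a : ZMod p) := by
  have : Fact p.Prime := ⟨hp⟩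
  rw [← jacobiSym.legendreSym.to_jacobiSym, legendreSym.eq_one_iff]
  rwa [Ne, ZMod.intCast_zmod_eq_zero_iff_dvd]

lemma sym_nr {l n : ℕ} (hl : l.Prime) (h : n.Coprime l) : jacobiSym (n : ℤ) l = 1 ↔ nr l n = 0 := by
  rw [sym_prime hl, nr_zero, Int.cast_natCast]
  intro h1
  have h2 : l ∣ n := by exact_mod_cast h1
  exact (hl.coprime_iff_not_dvd.1 h.symm) h2

lemma nr_01 (l n : ℕ) : nr l n = 0 ∨ nr l n = 1 := by
  unfold Pool.Agent.Y703.CQ.nr
  by_cases h : IsSquare (n : ZMod l)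
  · simp [h]
  · simp [h]

lemma sgn_nr {l n : ℕ} (hl : l.Prime) (h : n.Coprime l) : sgn (jacobiSym (n : ℤ) l) = nr l n := by
  have h1 := sym_nr hl h
  rcases nr_01 l n with h2 | h2
  · rw [h2, sgn_eq_zero, h1, h2]
  · have h3 : jacobiSym (n : ℤ) l ≠ 1 := by
      rw [Ne, h1, h2]
      decide
    rw [h2]
    unfold sgn
    rw [if_neg h3]

/-- (3) -/
lemma lam_zero' (hG : Gen b g) {n : ℕ} (hn : n.Coprime (MM b)) :
    lam g n = 0 ↔ n % 8 = 1 ∧ ∀ l ∈ b, nr l n = 0 := by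
  have ho : Odd n := Nat.odd_iff.2 (odd_of_cop hn)
  have h2 := odd_of_cop hn
  have h20 : ¬ n % 2 = 0 := by omega
  rw [lam_zero hG, jacobiSym.at_neg_one ho, jacobiSym.at_two ho, ZMod.χ₄_nat_eq_if_mod_four,
    ZMod.χ₈_nat_eq_if_mod_eight, if_neg h20, if_neg h20, ← and_assoc]
  have h3 : ((if n % 4 = 1 then (1 : ℤ) else -1) = 1 ∧
      (if n % 8 = 1 ∨ n % 8 = 7 then (1 : ℤ) else -1) = 1) ↔ n % 8 = 1 := by
    constructor
    · rintro ⟨h4, h5⟩
      have h6 : n % 4 = 1 := by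
        by_contra h
        rw [if_neg h] at h4
        norm_num at h4
      have h7 : n % 8 = 1 ∨ n % 8 = 7 := by
        by_contra h
        rw [if_neg h] at h5
        norm_num at h5
      omega
    · intro h
      rw [if_pos (by omega), if_pos (Or.inl h)]
      exact ⟨rfl, rfl⟩
  rw [h3]
  refine and_congr_right fun h8 => ?_
  refine forall₂_congr fun l hl => ?_
  rw [jacobiSym.quadratic_reciprocity_one_mod_four' (l_odd hG hl) (by omega),
    sym_nr (hG.odd l hl).1 (cop_l hn hl)]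

/-- the classes modulo 8 -/
lemma exists_mod8 (u v : ZMod 2) : ∃ a : ℕ, a % 2 = 1 ∧ ∀ n : ℕ, n % 8 = a % 8 →
    sgn (jacobiSym (-1) n) = u ∧ sgn (jacobiSym 2 n) = v := by
  have key : ∀ (a n : ℕ), a % 2 = 1 → n % 8 = a % 8 →
      sgn (jacobiSym (-1) n) = sgn (if a % 4 = 1 then 1 else -1) ∧
      sgn (jacobiSym 2 n) = sgn (if a % 8 = 1 ∨ a % 8 = 7 then 1 else -1) := by
    intro a n ha hn
    have ho : Odd n := Nat.odd_iff.2 (by omega)
    have h20 : ¬ n % 2 = 0 := by omega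
    rw [jacobiSym.at_neg_one ho, jacobiSym.at_two ho, ZMod.χ₄_nat_eq_if_mod_four,
      ZMod.χ₈_nat_eq_if_mod_eight, if_neg h20, if_neg h20, hn]
    have h4 : n % 4 = a % 4 := by omega
    rw [h4]
    exact ⟨rfl, rfl⟩
  have h01 : ∀ z : ZMod 2, z = 0 ∨ z = 1 := by decide
  have hs1 : sgn 1 = 0 := sgn_one
  have hs2 : sgn (-1) = 1 := by simp [sgn]
  rcases h01 u with rfl | rfl <;> rcases h01 v with rfl | rfl
  · refine ⟨1, rfl, fun n hn => ?_⟩
    obtain ⟨k1, k2⟩ := key 1 n rfl hn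
    rw [k1, k2]
    simp [hs1, hs2]
  · refine ⟨5, rfl, fun n hn => ?_⟩
    obtain ⟨k1, k2⟩ := key 5 n rfl hn
    rw [k1, k2]
    simp [hs1, hs2]
  · refine ⟨7, rfl, fun n hn => ?_⟩
    obtain ⟨k1, k2⟩ := key 7 n rfl hn
    rw [k1, k2]
    simp [hs1, hs2]
  · refine ⟨3, rfl, fun n hn => ?_⟩
    obtain ⟨k1, k2⟩ := key 3 n rfl hn
    rw [k1, k2]
    simp [hs1, hs2]

lemma exists_nr' {l : ℕ} (hl : Po l) (u : ZMod 2) : ∃ n : ℕ, n.Coprime l ∧ nr l n = u := by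
  have h01 : ∀ z : ZMod 2, z = 0 ∨ z = 1 := by decide
  rcases h01 u with rfl | rfl
  · exact ⟨1, Nat.coprime_one_left l, nr_one l⟩
  · exact exists_nr hl

/-- (2) -/
lemma lam_surj (hG : Gen b g) (π : Gr r) : ∃ a : ℕ, a.Coprime (MM b) ∧
    ∀ n : ℕ, n % MM b = a % MM b → lam g n = π := by
  obtain ⟨i1, hi1⟩ := (hG.im (-1)).2 (Or.inl rfl)
  obtain ⟨i2, hi2⟩ := (hG.im 2).2 (Or.inr (Or.inl rfl))
  obtain ⟨a8, ha8, hn8⟩ := exists_mod8 (π i1) (π i2)
  have hil : ∀ l : ℕ, ∃ i, l ∈ b → g i = (l : ℤ) := by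
    intro l
    by_cases hl : l ∈ b
    · obtain ⟨i, hi⟩ := (hG.im (l : ℤ)).2 (Or.inr (Or.inr ⟨l, hl, rfl⟩))
      exact ⟨i, fun _ => hi⟩
    · exact ⟨i1, fun h => absurd h hl⟩
  choose il hil using hil
  have hr : ∀ l : ℕ, ∃ n : ℕ, l ∈ b → n.Coprime l ∧
      nr l n = π (il l) + sgn ((-1) ^ (l / 2 * (a8 / 2))) := by
    intro l
    by_cases hl : l ∈ b
    · obtain ⟨n, h1, h2⟩ := exists_nr' (l := l) ⟨(hG.odd l hl).1, (hG.odd l hl).2⟩
        (π (il l) + sgn ((-1) ^ (l / 2 * (a8 / 2))))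
      exact ⟨n, fun _ => ⟨h1, h2⟩⟩
    · exact ⟨0, fun h => absurd h hl⟩
  choose rr hrr using hr
  obtain ⟨a, ha1, ha2, ha3⟩ := crt b (fun l hl => ⟨(hG.odd l hl).1, (hG.odd l hl).2⟩) rr
    (fun l hl => (hrr l hl).1) a8 ha8
  refine ⟨a, ha1, fun n hn => ?_⟩
  have hnM : n ≡ a [MOD MM b] := hn
  have hcop : n.Coprime (MM b) := by
    have : n.gcd (MM b) = a.gcd (MM b) := Nat.ModEq.gcd_eq hnM
    exact this.trans ha1
  have h8 : n % 8 = a8 % 8 := by
    have h1 : n ≡ a [MOD 8] := hnM.of_dvd (Dvd.intro _ rfl)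
    exact Eq.trans h1 ha2
  have ho : Odd n := Nat.odd_iff.2 (odd_of_cop hcop)
  obtain ⟨k1, k2⟩ := hn8 n h8
  funext i
  rw [lam_eq]
  rcases (hG.im (g i)).1 ⟨i, rfl⟩ with h | h | ⟨l, hl, h⟩
  · rw [h, k1, hG.inj (h.trans hi1.symm)]
  · rw [h, k2, hG.inj (h.trans hi2.symm)]
  · have hi : i = il l := hG.inj (h.trans (hil l hl).symm)
    rw [h, jacobiSym.quadratic_reciprocity (l_odd hG hl) ho]
    have hpar : (l / 2 * (n / 2)) % 2 = (l / 2 * (a8 / 2)) % 2 := by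
      rw [Nat.mul_mod, Nat.mul_mod (l / 2) (a8 / 2)]
      have : n / 2 % 2 = a8 / 2 % 2 := by omega
      rw [this]
    have hsg : ((-1 : ℤ)) ^ (l / 2 * (n / 2)) = (-1) ^ (l / 2 * (a8 / 2)) := by
      rw [neg_one_pow_eq_pow_mod_two, hpar, ← neg_one_pow_eq_pow_mod_two]
    have hc := cop_l hcop hl
    have hpm : jacobiSym (n : ℤ) l = 1 ∨ jacobiSym (n : ℤ) l = -1 := by
      apply jacobiSym.eq_one_or_neg_one
      rw [Int.gcd_natCast_natCast]
      exact hc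
    rw [hsg, sgn_mul (neg_one_pow_eq_or ℤ _) hpm, sgn_nr (hG.odd l hl).1 hc]
    have hnl : n % l = rr l % l := by
      have h1 : n ≡ a [MOD l] := hnM.of_dvd (Dvd.dvd.mul_left (dvd_prod_of_mem _ hl) 8)
      exact Eq.trans h1 (ha3 l hl)
    rw [nr_congr hnl, (hrr l hl).2, hi]
    have h2 : ∀ x y : ZMod 2, x + (y + x) = y := by decide
    exact h2 _ _

/-- primes not dividing the modulus do not divide the representatives -/
lemma not_dvd_rep (hrep : ∀ (x : Gr r) (p : ℕ), p.Prime → (p : ℤ) ∣ rep g x → p = 2 ∨ p ∈ b)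
    {p : ℕ} (hp : p.Prime) (hpM : ¬ p ∣ MM b) (x : Gr r) : ¬ (p : ℤ) ∣ rep g x := by
  intro h
  rcases hrep x p hp h with h1 | h1
  · subst h1
    exact hpM (Dvd.dvd.mul_right (by norm_num) _)
  · exact hpM (Dvd.dvd.mul_left (dvd_prod_of_mem _ h1) 8)

lemma sym_prod (n : ℕ) {ι : Type} (s : Finset ι) (f : ι → ℤ) :
    jacobiSym (∏ i ∈ s, f i) n = ∏ i ∈ s, jacobiSym (f i) n := by
  induction s using Finset.induction_on with
  | empty => simp
  | insert a s ha ih => rw [prod_insert ha, prod_insert ha, jacobiSym.mul_left, ih]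

/-- (4) -/
lemma dot_lam (hG : Gen b g)
    (hrep : ∀ (x : Gr r) (p : ℕ), p.Prime → (p : ℤ) ∣ rep g x → p = 2 ∨ p ∈ b)
    {p : ℕ} (hp : p.Prime) (hpM : ¬ p ∣ MM b) (x : Gr r) :
    dot x (lam g p) = if IsSquare ((rep g x : ℤ) : ZMod p) then 0 else 1 := by
  have hc : p.Coprime (MM b) := (hp.coprime_iff_not_dvd).2 hpM
  have h01 : ∀ z : ZMod 2, z = 0 ∨ z = 1 := by decide
  have h1 : dot x (lam g p) = sgn (jacobiSym (rep g x) p) := by
    unfold dot rep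
    rw [sym_prod, (sgn_prod _ _ ?_).2]
    · refine sum_congr rfl fun i _ => ?_
      rw [lam_eq]
      rcases h01 (x i) with h | h
      · rw [h, zero_mul, if_neg (by decide), jacobiSym.one_left, sgn_one]
      · rw [h, one_mul, if_pos rfl]
    · intro i _
      rcases h01 (x i) with h | h
      · rw [h, if_neg (by decide), jacobiSym.one_left]
        exact Or.inl rfl
      · rw [h, if_pos rfl]
        exact sym_pm hG hc i
  have h2 := sym_prime hp (not_dvd_rep hrep hp hpM x)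
  rw [h1]
  by_cases h : IsSquare ((rep g x : ℤ) : ZMod p)
  · rw [if_pos h, sgn_eq_zero, h2]
    exact h
  · rw [if_neg h]
    unfold sgn
    rw [if_neg (fun h3 => h (h2.1 h3))]

lemma primeFactors_MM (hG : Gen b g) : (MM b).primeFactors = insert 2 b := by
  unfold MM
  have hne : ∏ l ∈ b, l ≠ 0 := prod_ne_zero_iff.2 fun l hl => (hG.odd l hl).1.ne_zero
  rw [Nat.primeFactors_mul (by norm_num) hne, show (8 : ℕ) = 2 ^ 3 by norm_num,
    Nat.primeFactors_prime_pow (by norm_num) Nat.prime_two,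
    Nat.primeFactors_prod fun l hl => (hG.odd l hl).1]
  rfl

lemma uu_zero (p : ℕ) : uu p = 0 ↔ p % 4 ≠ 3 := by
  unfold Pool.Agent.N973.ND.uu
  by_cases h : p % 4 = 3
  · simp [h]
  · simp [h]

/-- (5) -/
lemma labz (hG : Gen b g) : LabZ (MM b) (lam g) where
  pos := by
    unfold MM
    exact Nat.mul_pos (by norm_num) (prod_pos fun l hl => (hG.odd l hl).1.pos)
  eight := Dvd.intro _ rfl
  zero := by
    intro p hp hpM
    have hc : p.Coprime (MM b) := (hp.coprime_iff_not_dvd).2 hpM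
    have : Fact p.Prime := ⟨hp⟩
    have hp2 : p % 2 = 1 := odd_of_cop hc
    rw [lam_zero hG, primeFactors_MM hG]
    have h1 : jacobiSym (-1) p = 1 ↔ uu p = 0 := by
      rw [sym_prime hp, uu_zero, Int.cast_neg, Int.cast_one, ZMod.exists_sq_eq_neg_one_iff]
      intro h
      rw [dvd_neg] at h
      have : (p : ℤ) ≤ 1 := Int.le_of_dvd one_pos h
      have := hp.two_le
      omega
    have h2 : ∀ l : ℕ, p.Coprime l → (jacobiSym (l : ℤ) p = 1 ↔ nr p l = 0) := by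
      intro l hl
      exact sym_nr hp hl.symm
    have h22 : jacobiSym 2 p = 1 ↔ nr p 2 = 0 := by
      have := h2 2 (Nat.coprime_two_right.2 (Nat.odd_iff.2 hp2))
      exact_mod_cast this
    rw [h1, h22]
    constructor
    · rintro ⟨k1, k2, k3⟩
      refine ⟨k1, fun l hl => ?_⟩
      rcases mem_insert.1 hl with rfl | hl
      · exact k2
      · exact (h2 l (cop_l hc hl)).1 (k3 l hl)
    · rintro ⟨k1, k2⟩
      exact ⟨k1, k2 2 (mem_insert_self 2 b), fun l hl =>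
        (h2 l (cop_l hc hl)).2 (k2 l (mem_insert_of_mem hl))⟩

/-- (6) -/
lemma uu_dot (hG : Gen b g)
    (hrep : ∀ (x : Gr r) (p : ℕ), p.Prime → (p : ℤ) ∣ rep g x → p = 2 ∨ p ∈ b)
    (hcl : IsSquare (-1 * rep g (ecl g (-1)))) {p : ℕ} (hp : p.Prime) (hpM : ¬ p ∣ MM b) :
    uu p = dot (ecl g (-1)) (lam g p) := by
  have : Fact p.Prime := ⟨hp⟩
  rw [dot_lam hG hrep hp hpM]
  have hnd := not_dvd_rep hrep hp hpM (ecl g (-1))
  obtain ⟨z, hz⟩ := hcl
  have h1 : rep g (ecl g (-1)) = -(z * z) := by linarith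
  have hz0 : (z : ZMod p) ≠ 0 := by
    intro h
    rw [ZMod.intCast_zmod_eq_zero_iff_dvd] at h
    apply hnd
    rw [h1, dvd_neg]
    exact Dvd.dvd.mul_right h z
  have h2 : IsSquare ((rep g (ecl g (-1)) : ℤ) : ZMod p) ↔ IsSquare (-1 : ZMod p) := by
    rw [h1]
    push_cast
    constructor
    · rintro ⟨w, hw⟩
      refine ⟨w * (z : ZMod p)⁻¹, ?_⟩
      have h3 : (-1 : ZMod p) = -((z : ZMod p) * z) * ((z : ZMod p)⁻¹ * (z : ZMod p)⁻¹) := by
        field_simp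
      rw [h3, hw]
      ring
    · rintro ⟨w, hw⟩
      exact ⟨w * z, by linear_combination ((z : ZMod p) * z) * hw⟩
  have h3 := ZMod.exists_sq_eq_neg_one_iff (p := p)
  unfold Pool.Agent.N973.ND.uu
  by_cases h : p % 4 = 3
  · rw [if_pos h, if_neg]
    rw [h2, h3]
    exact fun h4 => h4 h
  · rw [if_neg h, if_pos]
    rw [h2, h3]
    exact h

/-- (7) -/
lemma sq_bad (hG : Gen b g) {n : ℕ} (hn : n.Coprime (MM b)) (h0 : lam g n = 0) :
    IsSquare ((n : ℤ) : ℝ) ∧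
    ∀ (p : ℕ) [Fact p.Prime], p ∣ MM b → IsSquare ((n : ℤ) : ℚ_[p]) := by
  obtain ⟨h8, hl⟩ := (lam_zero' hG hn).1 h0
  refine ⟨⟨√(n : ℝ), ?_⟩, fun p hp hpM => ?_⟩
  · rw [Real.mul_self_sqrt (Nat.cast_nonneg n)]
    simp
  · have hmem : p ∈ (MM b).primeFactors :=
      Nat.mem_primeFactors.2 ⟨hp.out, hpM, (labz hG).pos.ne'⟩
    rw [primeFactors_MM hG] at hmem
    rcases mem_insert.1 hmem with rfl | hpb
    · obtain ⟨s, hs⟩ := Pool.Agent.W975.BMX.sq_of_mod' (n : ℤ) (by omega)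
      exact ⟨s, by rw [← hs, sq]⟩
    · have hc := cop_l hn hpb
      have hnd : ¬ (p : ℤ) ∣ (n : ℤ) := by
        intro h
        have h1 : p ∣ n := by exact_mod_cast h
        exact (hp.out.coprime_iff_not_dvd.1 hc.symm) h1
      have h1 : legendreSym p (n : ℤ) = 1 := by
        rw [legendreSym.eq_one_iff p (Pool.Agent.W335.BMX.cast_ne_zero hnd), Int.cast_natCast,
          ← nr_zero]
        exact hl p hpb
      have h2 := Pool.Agent.W335.BMX.isSquare_coe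
        (Pool.Agent.W335.BMX.sq_of_residue' (hG.odd p hpb).2 (n : ℤ) hnd h1)
      simpa using h2

end

/-- **(LAB)** -/
theorem t_LAB : S_LAB := by
  intro hgen b r g hG
  obtain ⟨-, hgen⟩ := hgen
  obtain ⟨-, hrep, -, -, hcl⟩ := hgen b r g hG
  refine ⟨fun u w hu hw => lam_mul hG hu hw, lam_surj hG, fun n hn => lam_zero' hG hn,
    fun p hp hpM x => dot_lam hG hrep hp hpM x, labz hG, fun p hp hpM => ?_,
    fun n hn h0 => sq_bad hG hn h0⟩
  refine uu_dot hG hrep (hcl (-1) (by norm_num) fun p hp h => ?_) hp hpM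
  exfalso
  rw [dvd_neg] at h
  have h1 : (p : ℤ) ≤ 1 := Int.le_of_dvd one_pos h
  have := hp.two_le
  omega

end Pool.Agent.N195.GK.LAB
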